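import Pool.Agent.Lib.MP_9f3af0_lcC.ExpChord

/-!
# MP_9f3af0_lc: simple polygons in which every vertex is passed by a chord with exposed ends can be mapped
-/

namespace Pool.Agent.Results.MP_9f3af0_lc.ExposedChords

open VisMap

/-- For every `n` there is one strategy which maps, among all simple `n`-gons, every simple `n`-gon in
which every vertex is passed by a chord with exposed ends, at most `views v` steps away. -/
theorem result (n : ℕ) :
    ∃ S : Strategy, ∀ (v : ZMod n → ℂ) (i : ZMod n), IsPolygon v → ExposedChords v →
      ∃ t : ℕ, ∀ (v' : ZMod n → ℂ) (i' : ZMod n), IsPolygon v' →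
        (run S v' i' t).1 = (run S v i t).1 → Nonempty (visGraph v' ≃g visGraph v) :=
  maps_exposedChords n

end Pool.Agent.Results.MP_9f3af0_lc.ExposedChords
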