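import Pool.Agent.Lib.MP_9f3af0_lc.AgLink
import Pool.Agent.Lib.MP_9f3af0_lc.GeoE
import Pool.Agent.Lib.MP_9f3af0_lc.Ord

/-!
# MP_9f3af0_lc: simple polygons with at most two or with at least `n / 3` different views, polygons
with a linked class, and polygons in which alike vertices are symmetric, can be mapped
-/

namespace Pool.Agent.Results.MP_9f3af0_lc.FewOrManyViews

open VisMap

/-- For every `n` there is one strategy which maps, among all simple `n`-gons, every simple `n`-gon
whose number of different views is at most `2` or at least `n / 3`, every simple `n`-gon in which,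
for some class of vertices that look alike, each vertex of the class sees the next one, and every simple
`n`-gon in which vertices that look alike are equivalent under a rotation of the boundary which preserves
visibility; in particular mapping is feasible for the simple `n`-gons if `n` is a prime, twice a prime,
`8` or `9`. -/
theorem result :
    (∀ n : ℕ, ∃ S : Strategy, ∀ (v : ZMod n → ℂ) (i : ZMod n), IsPolygon v →
      (views v ≤ 2 ∨ n ≤ 3 * views v ∨ Linked v ∨ Turning v) →
      ∃ t : ℕ, ∀ (v' : ZMod n → ℂ) (i' : ZMod n), IsPolygon v' →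
        (run S v' i' t).1 = (run S v i t).1 → Nonempty (visGraph v' ≃g visGraph v)) ∧
    ∀ n : ℕ, (n.Prime ∨ (∃ p : ℕ, p.Prime ∧ n = 2 * p) ∨ n = 8 ∨ n = 9) → Feasible n := by
  have hbef : ∀ {n : ℕ} (v : ZMod n → ℂ), IsPolygon v → Ag.BoundaryOrder v :=
    fun v hv i j k hj hk => before_iff hv hj hk
  have main : ∀ n : ℕ, ∃ S : Strategy, ∀ (v : ZMod n → ℂ) (i : ZMod n), IsPolygon v →
      (views v ≤ 2 ∨ n ≤ 3 * views v ∨ Linked v ∨ Turning v) →
      ∃ t : ℕ, ∀ (v' : ZMod n → ℂ) (i' : ZMod n), IsPolygon v' →
        (run S v' i' t).1 = (run S v i t).1 → Nonempty (visGraph v' ≃g visGraph v) :=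
    fun n => maps_linked (n := n) (fun v hv => geoE hv) (fun v hv => hbef v hv)
  refine ⟨main, fun n hn => ?_⟩
  obtain ⟨S, hS⟩ := main n
  refine ⟨S, fun v i hv => hS v i hv ?_⟩
  have h3 := hv.simple.three
  obtain ⟨h0, hd⟩ := views_dvd h3 (geo hv) (hbef v hv)
  have key : views v ≤ 2 ∨ n ≤ 3 * views v := by
    rcases hn with hp | ⟨p, hp, hn⟩ | rfl | rfl
    · rcases (Nat.dvd_prime hp).1 hd with h | h
      · exact Or.inl (by omega)
      · exact Or.inr (by omega)
    · rcases hp.eq_one_or_self_of_dvd _ (Nat.gcd_dvd_left p (views v)) with h | h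
      · left
        exact Nat.le_of_dvd (by norm_num)
          ((Nat.Coprime.symm (show Nat.Coprime p (views v) from h)).dvd_of_dvd_mul_right
            (hd.trans (dvd_of_eq hn)))
      · right
        have h4 : p ∣ views v := by
          rw [← h]; exact Nat.gcd_dvd_right p (views v)
        have := Nat.le_of_dvd h0 h4
        omega
    · have := Nat.le_of_dvd (by norm_num) hd
      interval_cases h : views v <;> omega
    · have := Nat.le_of_dvd (by norm_num) hd
      interval_cases h : views v <;> omega
  rcases key with h | h
  · exact Or.inl h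
  · exact Or.inr (Or.inl h)

end Pool.Agent.Results.MP_9f3af0_lc.FewOrManyViews
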