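import Pool.Agent.Lib.MP_9f3af0_lcB.OneTwoMaps

/-!
# MP_9f3af0_lc: simple polygons in which every vertex sees one of the next two vertices that look like
it can be mapped
-/

namespace Pool.Agent.Results.MP_9f3af0_lc.OneOfNextTwo

open VisMap

/-- For every `n` there is one strategy which maps, among all simple `n`-gons, every simple `n`-gon in
which every vertex sees at least one of the next two vertices on the boundary that look like it, and
every simple `n`-gon in which every vertex sees at least one of the previous two vertices that look like
it. -/
theorem result (n : ℕ) :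
    ∃ S : Strategy, ∀ (v : ZMod n → ℂ) (i : ZMod n), IsPolygon v →
      (SeesNextTwo v ∨ SeesPrevTwo v) →
      ∃ t : ℕ, ∀ (v' : ZMod n → ℂ) (i' : ZMod n), IsPolygon v' →
        (run S v' i' t).1 = (run S v i t).1 → Nonempty (visGraph v' ≃g visGraph v) := by
  obtain ⟨S, hS⟩ := maps_seesTwo n
  exact ⟨S, fun v i hv h => hS v i hv (Or.inr (Or.inr (Or.inr (Or.inr h))))⟩

end Pool.Agent.Results.MP_9f3af0_lc.OneOfNextTwo
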