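import Pool.Agent.Lib.MP_9f3af0_lcC.RectMaps

/-!
# MP_9f3af0_lc: simple polygons in which opposite vertices that look alike see each other, and with
short chords around every vertex, can be mapped
-/

namespace Pool.Agent.Results.MP_9f3af0_lc.ShortChords

open VisMap

/-- For every `n` there is one strategy which maps, among all simple `n`-gons, every simple `n`-gon in
which opposite vertices that look alike see each other, and which has at most three views, or in which
there are short chords around every vertex. -/
theorem result (n : ℕ) :
    ∃ S : Strategy, ∀ (v : ZMod n → ℂ) (i : ZMod n), IsPolygon v →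
      SeesOpposite v → (views v ≤ 3 ∨ SeesAcross v) →
      ∃ t : ℕ, ∀ (v' : ZMod n → ℂ) (i' : ZMod n), IsPolygon v' →
        (run S v' i' t).1 = (run S v i t).1 → Nonempty (visGraph v' ≃g visGraph v) :=
  maps_seesAcross n

end Pool.Agent.Results.MP_9f3af0_lc.ShortChords
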